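import Mathlib
import Pool.Agent.Lib.helper13.Cyc

set_option autoImplicit false

namespace Pool.Agent.Results.MP_60133c_an.Positive

open Finset H13Cone

/-- `P Q r m` is the coefficient of `t ^ m` in `1 / (Q(t) + z t ^ r)`, a rational function
of `z`. -/
noncomputable def P (Q : Polynomial ℝ) (r m : ℕ) : RatFunc ℝ :=
  PowerSeries.coeff m (((Q.map (algebraMap ℝ (RatFunc ℝ)) : Polynomial (RatFunc ℝ)) :
    PowerSeries (RatFunc ℝ)) + PowerSeries.C RatFunc.X * PowerSeries.X ^ r)⁻¹

section factor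
open Polynomial

theorem factor : ∀ (n : ℕ) (Q : ℝ[X]), Q.natDegree = n → Q ≠ 0 →
    (∀ z : ℂ, aeval z Q = 0 → z.im = 0 ∧ 0 < z.re) →
    ∃ a : ℕ → ℝ, (∀ j, 0 < a j) ∧ Q = C (Q.coeff 0) * ∏ j ∈ range n, (1 - C (a j) * X) := by
  intro n
  induction n with
  | zero => exact fun Q h _ _ => ⟨fun _ => 1, fun _ => one_pos, by
      simpa using eq_C_of_natDegree_eq_zero h⟩
  | succ n ih =>
    intro Q hp h0 h
    have hd : Q.degree ≠ 0 := by
      rw [degree_eq_natDegree h0, hp]; exact_mod_cast n.succ_ne_zero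
    obtain ⟨z, hz⟩ := IsAlgClosed.exists_aeval_eq_zero ℂ Q hd
    have hpos := (h z hz).2
    have hzr : z = algebraMap ℝ ℂ z.re := Complex.ext (by simp) (by simp [(h z hz).1])
    rw [hzr, aeval_algebraMap_apply_eq_algebraMap_eval, map_eq_zero] at hz
    obtain ⟨q, hq⟩ := dvd_iff_isRoot.2 hz
    have hq0 : q ≠ 0 := by rintro rfl; simp [hq] at h0
    obtain ⟨a, a1, a2⟩ := ih q (by
      rw [hq, natDegree_mul (X_sub_C_ne_zero _) hq0, natDegree_X_sub_C] at hp; omega) hq0
      (fun w hw => h w (by rw [hq, map_mul, hw, mul_zero]))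
    refine ⟨fun j => if j = n then z.re⁻¹ else a j, fun j => by
      dsimp only; split_ifs; exacts [inv_pos.2 hpos, a1 j], ?_⟩
    dsimp only
    rw [prod_range_succ, if_pos rfl, prod_congr rfl fun j hj => by
      rw [if_neg (mem_range.1 hj).ne]]
    have e : Q.coeff 0 = -z.re * q.coeff 0 := by rw [hq]; simp
    have e2 : C z.re * C z.re⁻¹ = (1 : ℝ[X]) := by rw [← C_mul, mul_inv_cancel₀ hpos.ne', C_1]
    rw [e, C_mul, C_neg]
    linear_combination hq + (X - C z.re) * a2 -
      (C (q.coeff 0) * (∏ j ∈ range n, (1 - C (a j) * X)) * X) * e2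

end factor

open PowerSeries

section alg
variable {R : Type} [CommRing R]

noncomputable def Pr (a : ℕ → R) (i : ℕ) : R⟦X⟧ := ∏ j ∈ range i, (1 - C (a j) * X)

theorem tele (a : ℕ → R) (i n : ℕ) (h : i ≤ n) :
    Pr a i = Pr a n + X * ∑ j ∈ Ico i n, C (a j) * Pr a j := by
  induction n, h using Nat.le_induction with
  | base => simp
  | succ n h ih =>
    rw [sum_Ico_succ_top h, show Pr a (n + 1) = Pr a n * (1 - C (a n) * X) from
      prod_range_succ _ _]
    linear_combination ih

theorem map_Pr {T : Type} [CommRing T] (φ : R →+* T) (a : ℕ → R) (i : ℕ) :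
    PowerSeries.map φ (Pr a i) = Pr (fun j => φ (a j)) i := by
  simp [Pr]

theorem cc_Pr (a : ℕ → R) (i : ℕ) : constantCoeff (Pr a i) = 1 := by simp [Pr]

noncomputable def G (a : ℕ → R) (w : R) (n : ℕ) : ℕ → ℕ → R
  | 0, _ => 1
  | m + 1, i => ∑ j ∈ range n, (if j < i then w else 1) * (a j * G a w n m j)

theorem map_G {T : Type} [CommRing T] (φ : R →+* T) (a : ℕ → R) (w : R) (n m : ℕ) :
    ∀ i, φ (G a w n m i) = G (fun j => φ (a j)) (φ w) n m i := by
  induction m with
  | zero => simp [G]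
  | succ m ih => intro i; simp [G, ih, apply_ite φ]

theorem G_eq (a : ℕ → R) (w : R) (n : ℕ) (S : R⟦X⟧) (hS : S * (Pr a n - C w) = 1) (m : ℕ) :
    ∀ i ≤ n, (1 - w) ^ (m + 1) * coeff m (Pr a i * S) = G a w n m i := by
  have key : ∀ i ≤ n, C (1 - w) * (Pr a i * S) =
      1 + X * ∑ j ∈ range n, C ((if j < i then w else 1) * a j) * (Pr a j * S) := by
    intro i hi
    have e1 : ∑ j ∈ range n, C ((if j < i then w else 1) * a j) * (Pr a j * S) =
        (C w * ∑ j ∈ Ico 0 i, C (a j) * Pr a j + ∑ j ∈ Ico i n, C (a j) * Pr a j) * S := by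
      rw [range_eq_Ico, ← sum_Ico_consecutive _ (Nat.zero_le i) hi, add_mul, mul_sum, sum_mul,
        sum_mul]
      congr 1
      · exact sum_congr rfl fun j hj => by rw [if_pos (mem_Ico.1 hj).2, map_mul]; ring
      · exact sum_congr rfl fun j hj => by
          rw [if_neg (not_lt.2 (mem_Ico.1 hj).1), one_mul]; ring
    have t1 := tele a i n hi
    have t2 := tele a 0 i (Nat.zero_le i)
    have t3 : Pr a 0 = 1 := by simp [Pr]
    rw [e1, map_sub, map_one]
    linear_combination hS + S * t1 + (C w * S) * t2 - (C w * S) * t3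
  induction m with
  | zero =>
    intro i hi
    have := congrArg (coeff 0) (key i hi)
    rw [coeff_C_mul] at this
    simpa [G] using this
  | succ m ih =>
    intro i hi
    have := congrArg (coeff (m + 1)) (key i hi)
    rw [coeff_C_mul, map_add, coeff_succ_X_mul, map_sum, coeff_one, if_neg (by omega),
      zero_add] at this
    rw [pow_succ, mul_assoc, this, G, mul_sum]
    refine sum_congr rfl fun j hj => ?_
    rw [coeff_C_mul, ← ih j (mem_range.1 hj).le]; ring

theorem rec_pos (a : ℕ → R) (w : R) (n r : ℕ) (S : R⟦X⟧)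
    (hS : S * (Pr a (n + 1) - C w * X ^ r) = 1) (m i : ℕ) (hi : i ≤ n) :
    coeff (m + 1) (Pr a i * S) = ∑ j ∈ Icc i (if r ≤ m + 1 then n + 1 else n),
      (if j ≤ n then a j * coeff m (Pr a j * S) else w * coeff (m + 1 - r) (Pr a 0 * S)) := by
  have t3 : Pr a 0 = 1 := by simp [Pr]
  have key : Pr a i * S = 1 + C w * (X ^ r * (Pr a 0 * S)) +
      X * ∑ j ∈ Ico i (n + 1), C (a j) * (Pr a j * S) := by
    have t1 := tele a i (n + 1) (by omega)
    simp only [← mul_assoc _ _ S, ← sum_mul]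
    linear_combination hS + S * t1 - (C w * X ^ r * S) * t3
  have e : ∑ j ∈ Ico i (n + 1), coeff m (C (a j) * (Pr a j * S)) = ∑ j ∈ Icc i n,
      (if j ≤ n then a j * coeff m (Pr a j * S) else w * coeff (m + 1 - r) (Pr a 0 * S)) :=
    sum_congr rfl fun j hj => by rw [if_pos (mem_Icc.1 hj).2, coeff_C_mul]
  rw [key, map_add, map_add, coeff_succ_X_mul, map_sum, coeff_one, if_neg (by omega), zero_add,
    coeff_C_mul, coeff_X_pow_mul', e]
  split_ifs with h
  · rw [sum_Icc_succ_top (by omega), if_neg (by omega), add_comm]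
  · rw [mul_zero, zero_add]

end alg

theorem G_ne (a : ℕ → ℝ) (ha : ∀ j, 0 < a j) (w : ℂ) (n : ℕ)
    (hw : w = 0 ∨ ∃ θ, 0 ≤ θ ∧ θ < Real.pi ∧ HA w θ) (m : ℕ) :
    G (fun j => (a j : ℂ)) w (n + 1) m 0 ≠ 0 := by
  rcases hw with rfl | ⟨θ, h0, h1, h2⟩
  · have : ∀ i ≤ n, InA (G (fun j => (a j : ℂ)) 0 (n + 1) m i) 0 0 := by
      induction m with
      | zero => exact fun i _ => HA_one.inA le_rfl le_rfl
      | succ m ih =>
        intro i hi
        rw [G, range_eq_Ico, ← sum_Ico_consecutive _ (Nat.zero_le i) (by omega : i ≤ n + 1),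
          sum_eq_zero fun j hj => by rw [if_pos (mem_Ico.1 hj).2, zero_mul], zero_add]
        refine InA.sum (by simp; omega) (fun j hj => ?_) (by linarith [Real.pi_pos])
        rw [mem_Ico] at hj
        obtain ⟨γ, g1, g2, g3⟩ := ih j (by omega)
        rw [if_neg (by omega), one_mul]
        exact (g3.smul (ha j)).inA g1 g2
    exact (this 0 (by omega)).ne_zero
  · have : ∃ α : ℕ → ℝ, (∀ i ≤ n, HA (G (fun j => (a j : ℂ)) w (n + 1) m i) (α i)) ∧
        (∀ k l, k ≤ l → l ≤ n → α k ≤ α l) ∧ α n ≤ α 0 + θ := by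
      induction m with
      | zero => exact ⟨fun _ => 0, fun _ _ => HA_one, fun _ _ _ _ => le_rfl, by linarith⟩
      | succ m ih =>
        obtain ⟨α, a1, a2, a3⟩ := ih
        obtain ⟨γ, g1, g2, g3, -⟩ := cyc_step n h2 h1 (fun j hj => (a1 j hj).smul (ha j)) a2 a3
        exact ⟨γ, fun i hi => g1 i (by omega), fun k l h h' => g2 k l h (by omega),
          g3 ▸ g2 n (n + 1) (by omega) le_rfl⟩
    obtain ⟨α, a1, -⟩ := this
    exact (a1 0 (by omega)).ne_zero

theorem f_ne (a : ℕ → ℝ) (ha : ∀ j, 0 < a j) (w : ℂ) (n r : ℕ) (hr : 1 ≤ r) (f : ℕ → ℕ → ℂ)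
    (hf0 : ∀ i ≤ n, f 0 i = 1)
    (hf : ∀ m, ∀ i ≤ n, f (m + 1) i = ∑ j ∈ Icc i (if r ≤ m + 1 then n + 1 else n),
      (if j ≤ n then a j * f m j else w * f (m + 1 - r) 0))
    (hw : w = 0 ∨ ∃ θ, 0 ≤ θ ∧ θ < Real.pi ∧ HA w θ) (M : ℕ) : f M 0 ≠ 0 := by
  have pi0 := Real.pi_pos
  rcases hw with rfl | ⟨θ, h0, h1, h2⟩
  · have : ∀ i ≤ n, InA (f M i) 0 0 := by
      induction M with
      | zero => exact fun i hi => by rw [hf0 i hi]; exact HA_one.inA le_rfl le_rfl
      | succ m ih =>
        intro i hi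
        have key : InA (∑ j ∈ Icc i n, (if j ≤ n then a j * f m j else 0 * f (m + 1 - r) 0))
            0 0 := by
          refine InA.sum (by simpa using hi) (fun j hj => ?_) (by linarith)
          rw [mem_Icc] at hj
          obtain ⟨γ, g1, g2, g3⟩ := ih j hj.2
          rw [if_pos hj.2]
          exact (g3.smul (ha j)).inA g1 g2
        rw [hf m i hi]
        split_ifs
        · rw [sum_Icc_succ_top (by omega), if_neg (by omega)]
          simpa only [zero_mul, add_zero] using key
        · exact key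
    exact (this 0 (by omega)).ne_zero
  · have : ∃ α : ℕ → ℕ → ℝ, (∀ m ≤ M, ∀ i ≤ n, HA (f m i) (α m i)) ∧
        (∀ k l, k ≤ l → l ≤ n → α M k ≤ α M l) ∧ (∀ k l, k ≤ l → l ≤ M → α k 0 ≤ α l 0) ∧
        α M n ≤ θ + α (M + 1 - r) 0 := by
      induction M with
      | zero =>
        refine ⟨fun _ _ => 0, fun m hm i hi => ?_, fun _ _ _ _ => le_rfl, fun _ _ _ _ => le_rfl,
          by linarith⟩
        rw [Nat.le_zero.1 hm, hf0 i hi]; exact HA_one
      | succ m ih =>
        obtain ⟨α, a1, a2, a3, a4⟩ := ih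
        have a5 := a3 (m + 1 - r) m (by omega) le_rfl
        obtain ⟨γ, g1, g2⟩ := win_chain (M := n + 2)
          (u := fun j => if j ≤ n then a j * f m j else w * f (m + 1 - r) 0)
          (β := fun j => if j ≤ n then α m j else θ + α (m + 1 - r) 0)
          (fun k hk => by
            split_ifs with h4
            · exact (a1 m le_rfl k h4).smul (ha k)
            · exact h2.mul (a1 _ (by omega) 0 (by omega)))
          (fun k l hkl hl => by
            split_ifs with h4 h5 h5
            · exact a2 k l hkl h5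
            · linarith [a2 k n h4 le_rfl]
            · omega
            · exact le_rfl)
          (n + 1) (fun k => k) (fun _ => if r ≤ m + 1 then n + 1 else n)
          (fun _ _ => by split_ifs <;> omega) (fun _ _ => by split_ifs <;> omega)
          (fun k hk => by
            rw [if_pos (by omega : k ≤ n)]
            have := a2 0 k (by omega) (by omega)
            by_cases h4 : r ≤ m + 1
            · rw [if_pos h4, if_neg (by omega)]; linarith
            · rw [if_neg h4, if_pos le_rfl]; linarith)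
          (fun _ _ h _ => h) (fun _ _ _ _ => le_rfl)
        have b0 := (g1 0 (by omega)).2.1
        have b1 : γ n ≤ θ + α (m + 1 - r) 0 := by
          have := (g1 n (by omega)).2.2
          by_cases h4 : r ≤ m + 1
          · rwa [if_pos h4, if_neg (by omega)] at this
          · rw [if_neg h4, if_pos le_rfl] at this; linarith
        rw [if_pos (Nat.zero_le n)] at b0
        refine ⟨fun k => if k ≤ m then α k else γ, fun k hk i hi => ?_, fun k l hkl hl => ?_,
          fun k l hkl hl => ?_, ?_⟩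
        · by_cases h4 : k ≤ m
          · simp only [h4, if_true]; exact a1 k h4 i hi
          · simp only [h4, if_false]
            rw [show k = m + 1 by omega, hf m i hi]
            exact (g1 i (by omega)).1
        · simp only [show ¬ m + 1 ≤ m by omega, if_false]
          exact g2 k l hkl (by omega)
        · by_cases h4 : k ≤ m <;> by_cases h5 : l ≤ m <;> simp only [h4, h5, if_true, if_false]
          · exact a3 k l hkl h5
          · linarith [a3 k m h4 le_rfl]
          · omega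
          · exact le_rfl
        · simp only [show ¬ m + 1 ≤ m by omega, if_false]
          by_cases h4 : m + 1 + 1 - r ≤ m
          · rw [if_pos h4]; linarith [a3 (m + 1 - r) _ (by omega) h4]
          · rw [if_neg h4]; linarith
    obtain ⟨α, a1, -⟩ := this
    exact (a1 M le_rfl 0 (by omega)).ne_zero

theorem exists_N (Q : Polynomial ℝ) (hd : 0 < Q.natDegree) (h0 : 0 < Q.coeff 0)
    (hQ : ∀ z : ℂ, Polynomial.aeval z Q = 0 → z.im = 0 ∧ 0 < z.re) (r m : ℕ) :
    ∃ N c : Polynomial ℝ, c ≠ 0 ∧ P Q r m * algebraMap _ _ c = algebraMap _ _ N ∧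
      ∀ z : ℂ, (-z / Q.coeff 0 = 0 ∨ ∃ θ, 0 ≤ θ ∧ θ < Real.pi ∧ HA (-z / Q.coeff 0) θ) →
        Polynomial.aeval z N ≠ 0 := by
  obtain ⟨n, hn⟩ : ∃ n, Q.natDegree = n + 1 := ⟨Q.natDegree - 1, by omega⟩
  obtain ⟨a, ha, hfac⟩ := factor _ Q hn (by rintro rfl; simp at hd) hQ
  set q := Q.coeff 0 with hq
  let w : Polynomial ℝ := -Polynomial.X * Polynomial.C q⁻¹
  let φ : Polynomial ℝ →+* RatFunc ℝ := algebraMap _ _
  let b : ℕ → Polynomial ℝ := fun j => Polynomial.C (a j)
  have hφ : ∀ x : ℝ, φ (Polynomial.C x) = algebraMap ℝ (RatFunc ℝ) x := fun x => rfl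
  have hqq : φ (Polynomial.C q) * φ (Polynomial.C q⁻¹) = 1 := by
    rw [← map_mul, ← Polynomial.C_mul, mul_inv_cancel₀ h0.ne']; simp
  set D : (RatFunc ℝ)⟦X⟧ := ((Q.map (algebraMap ℝ (RatFunc ℝ)) : Polynomial (RatFunc ℝ)) :
    PowerSeries (RatFunc ℝ)) + PowerSeries.C RatFunc.X * PowerSeries.X ^ r with hD
  have hD1 : D = C (φ (Polynomial.C q)) * (Pr (fun j => φ (b j)) (n + 1) - C (φ w) * X ^ r) := by
    have e1 : ((Q.map (algebraMap ℝ (RatFunc ℝ)) : Polynomial (RatFunc ℝ)) :
        PowerSeries (RatFunc ℝ)) = C (φ (Polynomial.C q)) * Pr (fun j => φ (b j)) (n + 1) := by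
      conv_lhs => rw [hfac]
      rw [← Polynomial.coeToPowerSeries.ringHom_apply]
      simp only [Polynomial.map_mul, Polynomial.map_prod, map_mul, map_prod, Polynomial.map_sub,
        map_sub, Polynomial.map_one, map_one, Polynomial.map_C, Polynomial.map_X,
        Polynomial.coeToPowerSeries.ringHom_apply, Polynomial.coe_C, Polynomial.coe_X, Pr, b, hφ]
    have e2 : φ (Polynomial.C q) * φ w = -RatFunc.X := by
      have : φ Polynomial.X = RatFunc.X := rfl
      simp only [w, map_mul, map_neg, this]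
      linear_combination (-RatFunc.X) * hqq
    rw [hD, e1, mul_sub, ← mul_assoc, ← map_mul, e2, map_neg]; ring
  have hinj : Function.Injective φ := IsFractionRing.injective _ _
  have hw1 : 1 - w ≠ 0 := fun h => by simpa [w] using congrArg (Polynomial.eval 0) h
  have hq0 : Polynomial.C q ≠ 0 := Polynomial.C_ne_zero.2 h0.ne'
  have hcc : constantCoeff D ≠ 0 := by
    rw [hD1, map_mul, map_sub, cc_Pr, map_mul, constantCoeff_C, constantCoeff_C, map_pow,
      constantCoeff_X]
    refine mul_ne_zero ((map_ne_zero_iff φ hinj).2 hq0) ?_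
    rcases Nat.eq_zero_or_pos r with rfl | hr
    · simpa using (map_ne_zero_iff φ hinj).2 hw1
    · simp [hr.ne']
  have hS : C (φ (Polynomial.C q)) * D⁻¹ * (Pr (fun j => φ (b j)) (n + 1) - C (φ w) * X ^ r) = 1 := by
    rw [mul_right_comm, ← hD1, PowerSeries.mul_inv_cancel _ hcc]
  have hev : ∀ z : ℂ, (Polynomial.aeval z).toRingHom w = -z / q := fun z => by
    simp [w, div_eq_mul_inv]; ring
  have hevb : ∀ z : ℂ, (fun j => (Polynomial.aeval z).toRingHom (b j)) = fun j => (a j : ℂ) :=
    fun z => funext fun j => by simp [b]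
  rcases Nat.eq_zero_or_pos r with rfl | hr
  · rw [pow_zero, mul_one] at hS
    have := G_eq _ _ _ _ hS m 0 (by omega)
    rw [← map_G, show Pr (fun j => φ (b j)) 0 = 1 by simp [Pr], one_mul, coeff_C_mul] at this
    refine ⟨G b w (n + 1) m 0, (1 - w) ^ (m + 1) * Polynomial.C q,
      mul_ne_zero (pow_ne_zero _ hw1) hq0, ?_, fun z hz => ?_⟩
    · change coeff m D⁻¹ * φ _ = φ _
      rw [← this]; simp only [map_mul, map_pow, map_sub, map_one]; ring
    · have := G_ne a ha _ n hz m
      rwa [← hev, ← hevb z, ← map_G] at this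
  · let S := invOfUnit (Pr b (n + 1) - C w * X ^ r) 1
    have hS' : S * (Pr b (n + 1) - C w * X ^ r) = 1 := invOfUnit_mul _ _ (by simp [cc_Pr, hr.ne'])
    have hmap : ∀ {T : Type} [CommRing T] (ψ : Polynomial ℝ →+* T), PowerSeries.map ψ S *
        (Pr (fun j => ψ (b j)) (n + 1) - C (ψ w) * X ^ r) = 1 := fun ψ => by
      simpa [map_Pr] using congrArg (PowerSeries.map ψ) hS'
    have e : C (φ (Polynomial.C q)) * D⁻¹ = PowerSeries.map φ S := by
      have := hmap φ
      linear_combination (PowerSeries.map φ S) * hS - (C (φ (Polynomial.C q)) * D⁻¹) * this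
    refine ⟨coeff m S, Polynomial.C q, hq0, ?_, fun z hz => ?_⟩
    · change coeff m D⁻¹ * φ _ = φ _
      rw [← coeff_map, ← e, coeff_C_mul, mul_comm]
    · have h1 := hmap (Polynomial.aeval z).toRingHom
      rw [hev, hevb] at h1
      have := f_ne a ha _ n r hr (fun m i => coeff m (Pr (fun j => (a j : ℂ)) i *
        PowerSeries.map (Polynomial.aeval z).toRingHom S)) (fun i _ => by
          have := congrArg constantCoeff h1
          simpa [cc_Pr, hr.ne'] using this) (fun m i hi => rec_pos _ _ n r _ h1 m i hi) hz m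
      simpa [Pr] using this

theorem result (Q : Polynomial ℝ) (hd : 0 < Q.natDegree) (h0 : 0 < Q.eval 0)
    (hQ : ∀ z : ℂ, Polynomial.aeval z Q = 0 → z.im = 0 ∧ 0 < z.re) (r m : ℕ) (z : ℂ)
    (hz : Polynomial.aeval z (P Q r m).num = 0) : z.im = 0 ∧ 0 < z.re := by
  rw [← Polynomial.coeff_zero_eq_eval_zero] at h0
  obtain ⟨N, c, hc, h1, h2⟩ := exists_N Q hd h0 hQ r m
  have hN0 : N ≠ 0 := by
    rintro rfl
    exact h2 0 (Or.inl (by simp)) (by simp)
  have hdvd : (P Q r m).num ∣ N := (RatFunc.num_dvd hN0).2 ⟨c, hc, by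
    rw [eq_div_iff ((map_ne_zero_iff _ (IsFractionRing.injective _ _)).2 hc), h1]⟩
  obtain ⟨k, hk⟩ := hdvd
  have hzN : Polynomial.aeval z N = 0 := by rw [hk, map_mul, hz, zero_mul]
  have up : ∀ t : ℂ, t.im < 0 → Polynomial.aeval t N ≠ 0 := fun t ht => by
    obtain ⟨θ, a1, a2, a3⟩ := exists_HA (t := -t / Q.coeff 0) (by
      rw [Complex.div_ofReal_im]; exact div_pos (by simpa using ht) h0)
    exact h2 t (Or.inr ⟨θ, a1.le, a2, a3⟩)
  have him : z.im = 0 := by
    rcases lt_trichotomy z.im 0 with h | h | h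
    · exact absurd hzN (up z h)
    · exact h
    · exact absurd (by rw [Polynomial.aeval_conj, hzN, map_zero])
        (up (starRingEnd ℂ z) (by simpa using h))
  refine ⟨him, ?_⟩
  by_contra hre
  refine h2 z ?_ hzN
  have e : -z / Q.coeff 0 = ((-z.re / Q.coeff 0 : ℝ) : ℂ) := by
    rw [show z = (z.re : ℂ) from Complex.ext (by simp) (by simp [him])]; simp
  rcases (not_lt.1 hre).eq_or_lt with h | h
  · left; rw [e, h]; simp
  · right
    exact ⟨0, le_rfl, Real.pi_pos, e ▸ HA_pos (div_pos (by linarith) h0)⟩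

end Pool.Agent.Results.MP_60133c_an.Positive
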